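import Pool.Agent.N889.WU.Stm

/-!
# The projective line has no regular differentials (helper505, project WU of helper889)
-/

set_option autoImplicit false

open Polynomial IntermediateField

namespace Pool.Agent.N505.WU

open Pool.Agent.N889.WU

universe u

/-- the ideal of denominators -/
def dn {k L : Type u} [Field k] [Field L] [Algebra k L] (t g : L) : Ideal k[X] where
  carrier := {G | ∃ F : k[X], g * aeval t G = aeval t F}
  add_mem' := by
    rintro a b ⟨F, hF⟩ ⟨F', hF'⟩
    exact ⟨F + F', by rw [map_add, mul_add, hF, hF', map_add]⟩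
  zero_mem' := ⟨0, by rw [map_zero, mul_zero]⟩
  smul_mem' := by
    rintro c a ⟨F, hF⟩
    exact ⟨c * F, by rw [smul_eq_mul, map_mul, map_mul, ← hF]; ring⟩

theorem poly_of {k L : Type u} [Field k] [IsAlgClosed k] [Field L] [Algebra k L] (t g : L)
    (h : ∀ a : k, g ∈ Oz k (t - algebraMap k L a)) : ∃ P : k[X], g = aeval t P := by
  have key : ∀ a : k, ∃ G ∈ dn (k := k) t g, G.eval a ≠ 0 := by
    intro a
    obtain ⟨f, g1, hg, he⟩ := h a
    have e1 : ∀ q : k[X], aeval (t - algebraMap k L a) q = aeval t (q.comp (X - C a)) := by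
      intro q
      rw [aeval_comp, map_sub, aeval_X, aeval_C]
    refine ⟨g1.comp (X - C a), ⟨f.comp (X - C a), ?_⟩, ?_⟩
    · rw [← e1, ← e1]
      exact he
    · rw [eval_comp, eval_sub, eval_X, eval_C, sub_self, ← coeff_zero_eq_eval_zero]
      exact hg
  obtain ⟨G, hG⟩ := IsPrincipalIdealRing.principal (dn (k := k) t g)
  have hG' : dn (k := k) t g = Ideal.span {G} := hG
  have hdvd : ∀ Q ∈ dn (k := k) t g, G ∣ Q := by
    intro Q hQ
    rw [hG', Ideal.mem_span_singleton] at hQ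
    exact hQ
  have hdeg : G.degree = 0 := by
    by_contra hne
    obtain ⟨a, ha⟩ := IsAlgClosed.exists_root G hne
    obtain ⟨Q, hQ, hQa⟩ := key a
    obtain ⟨R, hR⟩ := hdvd Q hQ
    apply hQa
    rw [hR, eval_mul, ha.eq_zero, zero_mul]
  have hunit : IsUnit G := isUnit_iff_degree_eq_zero.2 hdeg
  have h1 : (1 : k[X]) ∈ dn (k := k) t g := by
    rw [hG', Ideal.span_singleton_eq_top.2 hunit]
    exact Submodule.mem_top
  obtain ⟨P, hP⟩ := h1
  exact ⟨P, by rw [← hP, map_one, mul_one]⟩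

theorem hat {k L : Type u} [Field k] [Field L] [Algebra k L] (t : L) (ht : t ≠ 0) (N : ℕ)
    (q : k[X]) (hq : q.natDegree ≤ N) : ∃ q' : k[X], aeval t q' = t ^ N * aeval t⁻¹ q ∧
      q'.natDegree ≤ N ∧ q'.coeff N = q.coeff 0 := by
  refine ⟨∑ i ∈ Finset.range (N + 1), C (q.coeff i) * X ^ (N - i), ?_, ?_, ?_⟩
  · rw [aeval_eq_sum_range' (Nat.lt_succ_of_le hq), map_sum, Finset.mul_sum]
    refine Finset.sum_congr rfl fun i hi => ?_
    have hi' : i ≤ N := Nat.lt_succ_iff.1 (Finset.mem_range.1 hi)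
    rw [map_mul, aeval_C, map_pow, aeval_X, Algebra.smul_def, inv_pow]
    have e : t ^ N = t ^ (N - i) * t ^ i := by rw [← pow_add, Nat.sub_add_cancel hi']
    rw [e]
    field_simp
  · refine natDegree_sum_le_of_forall_le _ _ fun i _ => ?_
    exact (natDegree_C_mul_X_pow_le _ _).trans (Nat.sub_le _ _)
  · rw [finsetSum_coeff, Finset.sum_eq_single 0]
    · rw [coeff_C_mul_X_pow, if_pos (Nat.sub_zero N).symm]
    · intro i hi h0
      rw [coeff_C_mul_X_pow, if_neg]
      have hi' : i ≤ N := Nat.lt_succ_iff.1 (Finset.mem_range.1 hi)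
      omega
    · intro h
      exact absurd (Finset.mem_range.2 (Nat.succ_pos N)) h

/-- **the leaf** -/
theorem t_GLOB : S_GLOB.{u} := by
  intro k L _ _ _ _ t ht g _ hfin hinf
  obtain ⟨P, rfl⟩ := poly_of t g hfin
  have ht0 : t ≠ 0 := by
    intro h
    rw [h] at ht
    exact ht isAlgebraic_zero
  obtain ⟨f, g3, hg3, he⟩ := hinf
  obtain ⟨g', hg1, hg2, hg4⟩ := hat (k := k) t ht0 (max f.natDegree g3.natDegree) g3
    (le_max_right _ _)
  obtain ⟨f', hf1, hf2, -⟩ := hat (k := k) t ht0 (max f.natDegree g3.natDegree) f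
    (le_max_left _ _)
  obtain ⟨N, hN⟩ : ∃ N, N = max f.natDegree g3.natDegree := ⟨_, rfl⟩
  rw [← hN] at hg1 hg2 hg4 hf1 hf2
  have hinj := transcendental_iff_injective.1 ht
  have hpoly : X ^ 2 * P * g' = f' := by
    apply hinj
    rw [map_mul, map_mul, map_pow, aeval_X, hg1, hf1, ← he]
    ring
  by_contra hP0
  have hP : P ≠ 0 := by
    rintro rfl
    exact hP0 (map_zero _)
  have hg'c : g'.coeff N ≠ 0 := by rw [hg4]; exact hg3
  have hg'0 : g' ≠ 0 := by
    rintro rfl
    exact hg'c (coeff_zero N)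
  have hd : N ≤ g'.natDegree := le_natDegree_of_ne_zero hg'c
  have h2 : (X ^ 2 * P * g').natDegree = 2 + P.natDegree + g'.natDegree := by
    rw [natDegree_mul (mul_ne_zero (pow_ne_zero 2 X_ne_zero) hP) hg'0,
      natDegree_mul (pow_ne_zero 2 X_ne_zero) hP, natDegree_X_pow]
  rw [hpoly] at h2
  omega

end Pool.Agent.N505.WU
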